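import Pool.Agent.P.MP_246241_nt.EK.Main

set_option autoImplicit false

namespace Pool.Agent.Results.MP_246241_nt.EffectiveDimZero

theorem result (n : ℕ) (hn : 1 ≤ n) : ∃ κ : ℝ, 0 < κ ∧ ∀ p : ℕ, p.Prime →
    dimH {α : Fin n → ℝ | ¬ ∀ ε : ℝ, 0 < ε → ∀ N : ℕ, ∃ k : ℕ, N ≤ k ∧ 0 < k ∧ ∀ i : Fin n,
      ((k : ℝ) * ((padicNorm p (k : ℚ) : ℚ) : ℝ)) ^ ((1 : ℝ) / (n : ℝ)) *
        Real.log (Real.log k) ^ κ *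
        |(k : ℝ) * α i - ((round ((k : ℝ) * α i) : ℤ) : ℝ)| < ε} = 0 :=
  Pool.Agent.P.MP_246241_nt.EK.f_MAIN n hn

end Pool.Agent.Results.MP_246241_nt.EffectiveDimZero
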