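import Pool.Agent.P.MP_246241_nt.IS.All

namespace Pool.Agent.Results.MP_246241_nt.Isolation

open Pool.Agent.P.MP_246241_nt.IS NumberField

/-- Vector `p`-adic Littlewood conjecture for all vectors whose diagonal trajectory accumulates at
a lattice `g ℤ^(n+1)` coming from a full module of a number field of degree `n + 1`, the contracted
coordinate being a real embedding `φ₀` and the expanded ones combinations of the other
embeddings. -/
theorem result (n : ℕ) (hn : 1 ≤ n) (α : Fin n → ℝ) (K : Type) [Field K] [NumberField K]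
    (b : Module.Basis (Option (Fin n)) ℚ K) (φ₀ : K →+* ℂ) (hφ : ComplexEmbedding.IsReal φ₀)
    (g : Matrix (Option (Fin n)) (Option (Fin n)) ℝ) (c : Option (Fin n) → (K →+* ℂ) → ℂ)
    (hg : ∀ i j, (g i j : ℂ) = ∑ φ, c i φ * φ (b j))
    (h0 : ∀ φ, φ ≠ φ₀ → c none φ = 0) (h1 : ∀ i, c (some i) φ₀ = 0)
    (hacc : ∀ δ : ℝ, 0 < δ → ∃ (t : ℝ) (γ : Matrix (Option (Fin n)) (Option (Fin n)) ℤ),
      γ.det ≠ 0 ∧ ∀ i j, |(flow n t * uni α * γ.map fun x : ℤ => (x : ℝ)) i j - g i j| < δ)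
    (p : ℕ) (hp : p.Prime) :
    ∀ ε : ℝ, 0 < ε → ∀ N : ℕ, ∃ k : ℕ, N ≤ k ∧ 0 < k ∧
      ∀ i : Fin n,
        ((k : ℝ) * ((padicNorm p (k : ℚ) : ℚ) : ℝ)) ^ ((1 : ℝ) / (n : ℝ)) *
          |(k : ℝ) * α i - ((round ((k : ℝ) * α i) : ℤ) : ℝ)| < ε :=
  fin q_FRAME p_END n hn α K b φ₀ hφ g c hg h0 h1 hacc p hp

end Pool.Agent.Results.MP_246241_nt.Isolation
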