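import Pool.Agent.P.MP_246241_nt.TH.Main

set_option autoImplicit false

namespace Pool.Agent.Results.MP_246241_nt.LogThreshold

theorem result (n : ℕ) (hn : 1 ≤ n) : ∃ c : ℝ, 0 < c ∧ ∀ (p : ℕ) (f : ℕ → ℝ) (E : Set (Fin n → ℝ)),
    p.Prime → Monotone f → 0 ≤ f 0 →
    E = {α | ∃ ε : ℝ, 0 < ε ∧ ∃ N : ℕ, ∀ k : ℕ, N ≤ k → ∃ i : Fin n,
      ε ≤ ((k : ℝ) * ((padicNorm p (k : ℚ) : ℚ) : ℝ) * f k) ^ ((1 : ℝ) / (n : ℝ)) *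
        |(k : ℝ) * α i - ((round ((k : ℝ) * α i) : ℤ) : ℝ)|} →
    ((∃ δ : ℝ, 0 < δ ∧ ∃ N : ℕ, ∀ k : ℕ, N ≤ k → δ * Real.log k ≤ f k) → dimH E = n) ∧
    ((¬ ∃ δ : ℝ, 0 < δ ∧ ∃ N : ℕ, ∀ k : ℕ, N ≤ k → δ * Real.log k ≤ f k) →
      dimH E ≤ ENNReal.ofReal (n - c)) := by
  obtain ⟨c, hc, h⟩ := Pool.Agent.P.MP_246241_nt.TH.final n hn
  exact ⟨c, hc, fun p f E hp hf h0 e => e ▸ h p f hp hf h0⟩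

end Pool.Agent.Results.MP_246241_nt.LogThreshold
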