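import Mathlib

namespace Pool.Agent.Results.MP_246241_nt.Recurrent

open Matrix Filter Topology

/-- the diagonal flow `a_t = diag(e^(t/n), ..., e^(t/n), e^(-t))`; the index `none` is the last one -/
noncomputable def flow (n : ℕ) (t : ℝ) : Matrix (Option (Fin n)) (Option (Fin n)) ℝ :=
  Matrix.diagonal fun i => Option.elim i (Real.exp (-t)) fun _ => Real.exp (t / n)

lemma flow_add (n : ℕ) (s t : ℝ) : flow n (s + t) = flow n s * flow n t := by
  unfold flow
  rw [Matrix.diagonal_mul_diagonal]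
  congr 1
  funext i
  cases i with
  | none => simp only [Option.elim]; rw [← Real.exp_add]; ring_nf
  | some i => simp only [Option.elim]; rw [← Real.exp_add]; ring_nf

/-- returns to `g` with prescribed image `s` under a homomorphism -/
def Ret {n : ℕ} {G : Type} [Group G] (g : Matrix (Option (Fin n)) (Option (Fin n)) ℝ)
    (π : Matrix.SpecialLinearGroup (Option (Fin n)) ℤ →* G) (s : G) : Prop :=
  ∀ U ∈ 𝓝 g, ∀ T : ℝ, ∃ t, T ≤ t ∧ ∃ γ : Matrix.SpecialLinearGroup (Option (Fin n)) ℤ,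
    flow n t * g * (γ.1.map (Int.castRingHom ℝ)) ∈ U ∧ π γ = s

lemma ret_mul {n : ℕ} {G : Type} [Group G] {g : Matrix (Option (Fin n)) (Option (Fin n)) ℝ}
    {π : Matrix.SpecialLinearGroup (Option (Fin n)) ℤ →* G} {s s' : G}
    (h : Ret g π s) (h' : Ret g π s') : Ret g π (s' * s) := by
  intro U hU T
  obtain ⟨V, hVU, hV, hgV⟩ := mem_nhds_iff.1 hU
  obtain ⟨t, ht, γ, hγ, rfl⟩ := h V (hV.mem_nhds hgV) T
  have hc : Continuous fun X : Matrix (Option (Fin n)) (Option (Fin n)) ℝ =>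
      flow n t * X * (γ.1.map (Int.castRingHom ℝ)) :=
    (continuous_const.matrix_mul continuous_id).matrix_mul continuous_const
  obtain ⟨t', ht', γ', hγ', rfl⟩ := h' _ ((hV.preimage hc).mem_nhds hγ) 0
  refine ⟨t + t', by linarith, γ' * γ, hVU ?_, by rw [map_mul]⟩
  have : flow n (t + t') * g * ((γ' * γ).1.map (Int.castRingHom ℝ)) =
      flow n t * (flow n t' * g * (γ'.1.map (Int.castRingHom ℝ))) *
        (γ.1.map (Int.castRingHom ℝ)) := by
    rw [flow_add, Matrix.SpecialLinearGroup.coe_mul, Matrix.map_mul]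
    simp only [Matrix.mul_assoc]
  rw [this]
  exact hγ'

lemma ret_one {n : ℕ} {G : Type} [Group G] [Finite G]
    {g : Matrix (Option (Fin n)) (Option (Fin n)) ℝ}
    (π : Matrix.SpecialLinearGroup (Option (Fin n)) ℤ →* G)
    (h : ∀ U ∈ 𝓝 g, ∀ T : ℝ, ∃ t, T ≤ t ∧ ∃ γ : Matrix.SpecialLinearGroup (Option (Fin n)) ℤ,
      flow n t * g * (γ.1.map (Int.castRingHom ℝ)) ∈ U) : Ret g π 1 := by
  have hex : ∃ s, Ret g π s := by
    by_contra hne
    simp only [Ret, not_exists, not_forall, not_and] at hne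
    choose U hU T hT using hne
    obtain ⟨B, hB⟩ := (Set.finite_range T).bddAbove
    obtain ⟨t, ht, γ, hγ⟩ := h (⋂ s, U s) (Filter.iInter_mem.2 hU) B
    exact hT (π γ) t (le_trans (hB ⟨_, rfl⟩) ht) γ (Set.mem_iInter.1 hγ _) rfl
  obtain ⟨s, hs⟩ := hex
  have hpow : ∀ m : ℕ, Ret g π (s ^ (m + 1)) := by
    intro m
    induction m with
    | zero => simpa using hs
    | succ m ih => rw [pow_succ]; exact ret_mul hs ih
  have hpos := orderOf_pos s
  have := hpow (orderOf s - 1)
  rwa [Nat.sub_add_cancel hpos, pow_orderOf_eq_one] at this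

/-- the key estimate: approximations of Dirichlet quality whose denominators are divisible by `l` -/
lemma key {n : ℕ} (hn : 1 ≤ n) (α : Fin n → ℝ) (g : Matrix (Option (Fin n)) (Option (Fin n)) ℝ)
    (hg : g.det ≠ 0) (hα : ∀ i : Fin n, ∑ j : Fin n, g (some i) (some j) * α j + g (some i) none = 0)
    (h : ∀ U ∈ 𝓝 g, ∀ T : ℝ, ∃ t, T ≤ t ∧ ∃ γ : Matrix.SpecialLinearGroup (Option (Fin n)) ℤ,
      flow n t * g * (γ.1.map (Int.castRingHom ℝ)) ∈ U) :
    ∃ C : ℝ, 0 < C ∧ ∀ l : ℕ, 1 ≤ l → ∃ t : ℝ, ∃ q : ℤ, ∃ r : Fin n → ℤ, q ≠ 0 ∧ (l : ℤ) ∣ q ∧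
      |(q : ℝ)| ≤ C * Real.exp t ∧ ∀ j, |(q : ℝ) * α j - r j| ≤ C * Real.exp (-(t / n)) := by
  classical
  set a : Option (Fin n) → ℝ := fun i => Option.elim i 1 α with ha
  set k := g⁻¹ with hk
  have hkg : k * g = 1 := Matrix.nonsing_inv_mul g (isUnit_iff_ne_zero.2 hg)
  have hinv : ∀ v : Option (Fin n) → ℝ, ∀ i,
      v i = k i none * (g *ᵥ v) none + ∑ j : Fin n, k i (some j) * (g *ᵥ v) (some j) := by
    intro v i
    have : v = k *ᵥ (g *ᵥ v) := by rw [Matrix.mulVec_mulVec, hkg, Matrix.one_mulVec]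
    conv_lhs => rw [this]
    rw [Matrix.mulVec, dotProduct, Fintype.sum_option]
  have hga : ∀ j : Fin n, (g *ᵥ a) (some j) = 0 := by
    intro j
    rw [Matrix.mulVec, dotProduct, Fintype.sum_option]
    have := hα j
    simp only [ha, Option.elim]
    linarith
  have hk1 : ∀ j : Fin n, k (some j) none = α j * k none none := by
    intro j
    have h1 := hinv a none
    have h2 := hinv a (some j)
    simp only [hga, mul_zero, Finset.sum_const_zero, add_zero] at h1 h2
    have h1' : (1 : ℝ) = k none none * (g *ᵥ a) none := h1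
    have h2' : α j = k (some j) none * (g *ᵥ a) none := h2
    rw [h2']
    linear_combination (k (some j) none) * h1'
  set B : ℝ := ∑ i, ∑ j, |g i j| + 1 with hB
  set H : ℝ := ∑ i, ∑ j, |k i j| with hH
  set A : ℝ := ∑ i, |α i| with hA
  have hgB : ∀ i j, |g i j| < B := by
    intro i j
    have h1 : |g i j| ≤ ∑ j, |g i j| :=
      Finset.single_le_sum (f := fun j => |g i j|) (fun _ _ => abs_nonneg _) (Finset.mem_univ j)
    have h2 : ∑ j, |g i j| ≤ ∑ i, ∑ j, |g i j| :=
      Finset.single_le_sum (f := fun i => ∑ j, |g i j|)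
        (fun _ _ => Finset.sum_nonneg fun _ _ => abs_nonneg _) (Finset.mem_univ i)
    linarith
  have hkH : ∀ i, |k i none| + ∑ j : Fin n, |k i (some j)| ≤ H := by
    intro i
    have h2 : ∑ j, |k i j| ≤ ∑ i, ∑ j, |k i j| :=
      Finset.single_le_sum (f := fun i => ∑ j, |k i j|)
        (fun _ _ => Finset.sum_nonneg fun _ _ => abs_nonneg _) (Finset.mem_univ i)
    rwa [Fintype.sum_option] at h2
  have hαA : ∀ i, |α i| ≤ A := fun i =>
    Finset.single_le_sum (f := fun j => |α j|) (fun _ _ => abs_nonneg _) (Finset.mem_univ i)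
  have hB0 : 0 < B := lt_of_le_of_lt (abs_nonneg _) (hgB none none)
  have hH0 : 0 ≤ H := Finset.sum_nonneg fun _ _ => Finset.sum_nonneg fun _ _ => abs_nonneg _
  have hA0 : 0 ≤ A := Finset.sum_nonneg fun _ _ => abs_nonneg _
  have hn0 : (0 : ℝ) < n := by exact_mod_cast hn
  set C : ℝ := H * B * (A + 2) + 1 with hC
  have hC0 : 0 < C := by positivity
  refine ⟨C, hC0, fun l hl => ?_⟩
  have : NeZero l := ⟨by omega⟩
  have hU : {X : Matrix (Option (Fin n)) (Option (Fin n)) ℝ | ∀ i j, |X i j| < B} ∈ 𝓝 g := by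
    have : IsOpen {X : Matrix (Option (Fin n)) (Option (Fin n)) ℝ | ∀ i j, |X i j| < B} := by
      simp only [Set.ofPred_forall]
      exact isOpen_iInter_of_finite fun i => isOpen_iInter_of_finite fun j =>
        isOpen_lt (continuous_id.matrix_elem i j).abs continuous_const
    exact this.mem_nhds hgB
  obtain ⟨t, ht, γ, hγ, hγ1⟩ := ret_one
    (Matrix.SpecialLinearGroup.map (n := Option (Fin n)) (Int.castRingHom (ZMod l))) h _ hU (n * C)
  have ht0 : 0 ≤ t := le_trans (by positivity) ht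
  let i0 : Fin n := ⟨0, hn⟩
  let v : Option (Fin n) → ℝ := fun j => ((γ.1 j (some i0) : ℤ) : ℝ)
  have hcol : ∀ i, (flow n t * g * (γ.1.map (Int.castRingHom ℝ))) i (some i0) =
      (Option.elim i (Real.exp (-t)) fun _ => Real.exp (t / n)) * (g *ᵥ v) i := by
    intro i
    rw [Matrix.mul_assoc, flow, Matrix.diagonal_mul]
    rfl
  have hy0 : |(g *ᵥ v) none| ≤ B * Real.exp t := by
    have h1 := hγ none (some i0)
    rw [hcol, abs_mul] at h1
    simp only [Option.elim] at h1
    rw [abs_of_pos (Real.exp_pos _), Real.exp_neg, inv_mul_lt_iff₀ (Real.exp_pos _)] at h1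
    linarith
  have hy1 : ∀ j : Fin n, |(g *ᵥ v) (some j)| ≤ B * Real.exp (-(t / n)) := by
    intro j
    have h1 := hγ (some j) (some i0)
    rw [hcol, abs_mul] at h1
    simp only [Option.elim] at h1
    rw [abs_of_pos (Real.exp_pos _), ← lt_inv_mul_iff₀ (Real.exp_pos _)] at h1
    rw [Real.exp_neg]
    linarith
  have hz : ∀ i, |∑ j : Fin n, k i (some j) * (g *ᵥ v) (some j)| ≤
      H * (B * Real.exp (-(t / n))) := by
    intro i
    refine le_trans (Finset.abs_sum_le_sum_abs _ _) ?_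
    have h1 : ∑ j : Fin n, |k i (some j) * (g *ᵥ v) (some j)| ≤
        ∑ j : Fin n, |k i (some j)| * (B * Real.exp (-(t / n))) :=
      Finset.sum_le_sum fun j _ => by
        rw [abs_mul]; exact mul_le_mul_of_nonneg_left (hy1 j) (abs_nonneg _)
    rw [← Finset.sum_mul] at h1
    refine le_trans h1 (mul_le_mul_of_nonneg_right ?_ (by positivity))
    have := hkH i
    have := abs_nonneg (k i none)
    linarith
  have he1 : Real.exp (-(t / n)) ≤ Real.exp t :=
    Real.exp_le_exp.2 (by have : 0 ≤ t / n := by positivity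
                          linarith)
  have happ : ∀ j : Fin n, |v none * α j - v (some j)| ≤ C * Real.exp (-(t / n)) := by
    intro j
    have h1 : v none * α j - v (some j) =
        (∑ j : Fin n, k none (some j) * (g *ᵥ v) (some j)) * α j -
          ∑ j' : Fin n, k (some j) (some j') * (g *ᵥ v) (some j') := by
      have h2 := hinv v none
      have h3 := hinv v (some j)
      rw [hk1] at h3
      linear_combination (α j) * h2 - h3
    rw [h1]
    refine le_trans (abs_sub _ _) ?_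
    rw [abs_mul]
    have h2 := mul_le_mul (hz none) (hαA j) (abs_nonneg _) (by positivity)
    have h3 := hz (some j)
    have h4 : 0 ≤ H * (B * Real.exp (-(t / n))) := by positivity
    have h5 := Real.exp_pos (-(t / n))
    rw [hC]
    nlinarith
  have hsmall : C * Real.exp (-(t / n)) < 1 := by
    rw [Real.exp_neg, mul_inv_lt_iff₀ (Real.exp_pos _), one_mul]
    have h1 : C ≤ t / n := by rw [le_div_iff₀ hn0]; linarith
    have := Real.add_one_le_exp (t / n)
    linarith
  refine ⟨t, γ.1 none (some i0), fun j => γ.1 (some j) (some i0), ?_, ?_, ?_, happ⟩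
  · intro hq
    have hzero : ∀ j, γ.1 j (some i0) = 0 := by
      intro j
      cases j with
      | none => exact hq
      | some j =>
        have h1 := lt_of_le_of_lt (happ j) hsmall
        simp only [v, hq, Int.cast_zero, zero_mul, zero_sub, abs_neg] at h1
        have h2 : |γ.1 (some j) (some i0)| < 1 := by exact_mod_cast h1
        exact Int.abs_lt_one_iff.1 h2
    have h1 := Matrix.det_eq_zero_of_column_eq_zero (some i0) hzero
    rw [γ.2] at h1
    exact one_ne_zero h1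
  · have h1 := congrArg (fun x : Matrix.SpecialLinearGroup (Option (Fin n)) (ZMod l) =>
      x.1 none (some i0)) hγ1
    rw [← ZMod.intCast_zmod_eq_zero_iff_dvd]
    simpa using h1
  · have h1 := hinv v none
    have h2 : |v none| ≤ |k none none| * (B * Real.exp t) + H * (B * Real.exp (-(t / n))) := by
      rw [h1]
      refine le_trans (abs_add_le _ _) (add_le_add ?_ (hz none))
      rw [abs_mul]
      exact mul_le_mul_of_nonneg_left hy0 (abs_nonneg _)
    have h3 : |k none none| ≤ H := by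
      have := hkH none
      have : 0 ≤ ∑ j : Fin n, |k none (some j)| := Finset.sum_nonneg fun _ _ => abs_nonneg _
      linarith
    have h4 := mul_le_mul_of_nonneg_right h3 (show 0 ≤ B * Real.exp t by positivity)
    have h5 := mul_le_mul_of_nonneg_left he1 (show 0 ≤ H * B by positivity)
    have h6 : 0 ≤ H * B * A * Real.exp t := by positivity
    have h7 := Real.exp_pos t
    show |v none| ≤ _
    rw [hC]
    nlinarith

/-- Vector `p`-adic Littlewood conjecture for all vectors whose diagonal trajectory is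
asymptotic to a forward recurrent point. -/
theorem result (n : ℕ) (hn : 1 ≤ n) (α : Fin n → ℝ)
    (g : Matrix (Option (Fin n)) (Option (Fin n)) ℝ) (hg : g.det ≠ 0)
    (hα : ∀ i : Fin n, ∑ j : Fin n, g (some i) (some j) * α j + g (some i) none = 0)
    (hrec : ∀ δ : ℝ, 0 < δ → ∀ T : ℝ, ∃ t : ℝ, T ≤ t ∧
      ∃ γ : Matrix (Option (Fin n)) (Option (Fin n)) ℤ, γ.det = 1 ∧
        ∀ i j, |(flow n t * g * γ.map (fun x : ℤ => (x : ℝ))) i j - g i j| < δ)
    (p : ℕ) (hp : p.Prime) :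
    ∀ ε : ℝ, 0 < ε → ∀ N : ℕ, ∃ k : ℕ, N ≤ k ∧ 0 < k ∧
      ∀ i : Fin n,
        ((k : ℝ) * ((padicNorm p (k : ℚ) : ℚ) : ℝ)) ^ ((1 : ℝ) / (n : ℝ)) *
          |(k : ℝ) * α i - ((round ((k : ℝ) * α i) : ℤ) : ℝ)| < ε := by
  intro ε hε N
  have hn0 : (0 : ℝ) < n := by exact_mod_cast hn
  obtain ⟨C, hC0, hC⟩ := key hn α g hg hα (by
    intro U hU T
    obtain ⟨δ, hδ, hsub⟩ : ∃ δ : ℝ, 0 < δ ∧
        ∀ X : Matrix (Option (Fin n)) (Option (Fin n)) ℝ, (∀ i j, |X i j - g i j| < δ) → X ∈ U := by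
      have hU' : U ∈ @nhds (Option (Fin n) → Option (Fin n) → ℝ) _ g := hU
      obtain ⟨δ, hδ, hb⟩ := Metric.mem_nhds_iff.1 hU'
      refine ⟨δ, hδ, fun X hX => hb ?_⟩
      exact Metric.mem_ball.2 ((dist_pi_lt_iff hδ).2 fun i => (dist_pi_lt_iff hδ).2 fun j => hX i j)
    obtain ⟨t, ht, γ, hγ, h⟩ := hrec δ hδ T
    exact ⟨t, ht, ⟨γ, hγ⟩, hsub _ h⟩)
  have hp1 : (1 : ℝ) < p := by exact_mod_cast hp.one_lt
  obtain ⟨m, hm⟩ := pow_unbounded_of_one_lt (max (N : ℝ) (C * (C / ε) ^ n)) hp1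
  have hmN : (N : ℝ) < (p : ℝ) ^ m := lt_of_le_of_lt (le_max_left _ _) hm
  have hmC : C * (C / ε) ^ n < (p : ℝ) ^ m := lt_of_le_of_lt (le_max_right _ _) hm
  have hpm : (0 : ℝ) < (p : ℝ) ^ m := by positivity
  obtain ⟨t, q, r, hq0, hdvd, hq, hr⟩ := hC (p ^ m) (Nat.one_le_pow _ _ hp.pos)
  have hkpos : 0 < q.natAbs := Int.natAbs_pos.2 hq0
  have hdvd' : p ^ m ∣ q.natAbs := Int.natCast_dvd.1 hdvd
  have hkq : ((q.natAbs : ℕ) : ℝ) = |(q : ℝ)| := by
    rw [← Int.cast_natCast, Int.natCast_natAbs, Int.cast_abs]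
  refine ⟨q.natAbs, ?_, hkpos, fun i => ?_⟩
  · have h1 := Nat.le_of_dvd hkpos hdvd'
    have h2 : N < p ^ m := by exact_mod_cast hmN
    omega
  · have : Fact p.Prime := ⟨hp⟩
    have hnorm : ((padicNorm p ((q.natAbs : ℕ) : ℚ) : ℚ) : ℝ) ≤ ((p : ℝ) ^ m)⁻¹ := by
      have h1 : ((p ^ m : ℕ) : ℤ) ∣ ((q.natAbs : ℕ) : ℤ) := Int.natCast_dvd_natCast.2 hdvd'
      have h2 := (padicNorm.dvd_iff_norm_le (p := p) (n := m) (z := ((q.natAbs : ℕ) : ℤ))).1 h1
      rw [Int.cast_natCast, _root_.zpow_neg, _root_.zpow_natCast] at h2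
      have h3 := (Rat.cast_le (K := ℝ)).2 h2
      simpa using h3
    have hnorm0 : (0 : ℝ) ≤ ((padicNorm p ((q.natAbs : ℕ) : ℚ) : ℚ) : ℝ) := by
      exact_mod_cast padicNorm.nonneg _
    have hround : |((q.natAbs : ℕ) : ℝ) * α i - ((round (((q.natAbs : ℕ) : ℝ) * α i) : ℤ) : ℝ)| ≤
        C * Real.exp (-(t / n)) := by
      refine le_trans ?_ (hr i)
      rw [hkq]
      rcases abs_cases (q : ℝ) with h | h
      · rw [h.1]; exact round_le _ _
      · rw [h.1]
        refine le_trans (round_le _ (-r i)) (le_of_eq ?_)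
        rw [← abs_neg]
        congr 1
        push_cast
        ring
    have hbase : ((q.natAbs : ℕ) : ℝ) * ((padicNorm p ((q.natAbs : ℕ) : ℚ) : ℚ) : ℝ) <
        (ε / C * Real.exp (t / n)) ^ n := by
      have h1 : ((q.natAbs : ℕ) : ℝ) * ((padicNorm p ((q.natAbs : ℕ) : ℚ) : ℚ) : ℝ) ≤
          C * Real.exp t * ((p : ℝ) ^ m)⁻¹ :=
        mul_le_mul (hkq ▸ hq) hnorm hnorm0 (by positivity)
      refine lt_of_le_of_lt h1 ?_
      rw [mul_pow, ← Real.exp_nat_mul, mul_div_cancel₀ _ hn0.ne', mul_inv_lt_iff₀ hpm]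
      have h2 : (ε / C) ^ n * (C / ε) ^ n = 1 := by
        rw [← mul_pow]; field_simp; simp
      have h3 : 0 < (ε / C) ^ n * Real.exp t := by positivity
      have h4 := mul_lt_mul_of_pos_left hmC h3
      calc C * Real.exp t = (ε / C) ^ n * Real.exp t * (C * (C / ε) ^ n) := by
            linear_combination (-(C * Real.exp t)) * h2
        _ < _ := h4
    have hroot : (((q.natAbs : ℕ) : ℝ) * ((padicNorm p ((q.natAbs : ℕ) : ℚ) : ℚ) : ℝ)) ^
        ((1 : ℝ) / (n : ℝ)) < ε / C * Real.exp (t / n) := by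
      have h1 := Real.rpow_lt_rpow (by positivity) hbase (show (0 : ℝ) < 1 / n by positivity)
      rwa [one_div, Real.pow_rpow_inv_natCast (by positivity) (by omega), ← one_div] at h1
    have h5 : ε / C * Real.exp (t / n) * (C * Real.exp (-(t / n))) = ε := by
      rw [Real.exp_neg]; field_simp
    have h6 : 0 < C * Real.exp (-(t / n)) := by positivity
    calc _ ≤ _ := mul_le_mul_of_nonneg_left hround (Real.rpow_nonneg (by positivity) _)
      _ < ε / C * Real.exp (t / n) * (C * Real.exp (-(t / n))) := mul_lt_mul_of_pos_right hroot h6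
      _ = ε := h5

end Pool.Agent.Results.MP_246241_nt.Recurrent
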